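import Pool.Agent.Helper31.RG.Goals

namespace Pool.Agent.Helper25.RG.PkPAR

open Pool.Agent.Helper65.LinSpace Pool.Agent.Helper78 Pool.Agent.Helper78.Mpc
  Pool.Agent.Helper78.Xor Pool.Agent.Helper31.RG Finset

theorem pow_kap_le (n : ℕ) : 2 ^ (10 * (kap n * kap n)) ≤ ll n := by
  have h1 : kap n * kap n ≤ Nat.log 2 (ll n) / 10 := by
    unfold kap
    exact Nat.sqrt_le _
  have h2 : 10 * (kap n * kap n) ≤ Nat.log 2 (ll n) := by
    have := Nat.div_mul_le_self (Nat.log 2 (ll n)) 10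
    omega
  exact (Nat.pow_le_pow_right (by norm_num) h2).trans (Nat.pow_log_le_self 2 (Nat.pos_iff_ne_zero.1 (ll_pos n)))

theorem sq_le_pow (κ : ℕ) : κ * κ + 2 * κ + 1 ≤ 2 ^ (2 * κ) := by
  have h : κ + 1 ≤ 2 ^ κ := Nat.lt_two_pow_self
  calc κ * κ + 2 * κ + 1 = (κ + 1) * (κ + 1) := by ring
    _ ≤ 2 ^ κ * 2 ^ κ := Nat.mul_le_mul h h
    _ = 2 ^ (2 * κ) := by rw [← pow_add]; congr 1; ring

theorem le_pow_sq (κ : ℕ) : κ ≤ 2 ^ (κ * κ) := by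
  rcases Nat.eq_zero_or_pos κ with h | h
  · subst h; norm_num
  · exact (Nat.lt_two_pow_self).le.trans
      (Nat.pow_le_pow_right (by norm_num) (Nat.le_mul_of_pos_left _ h))

section

variable {κ q k r : ℕ}

theorem D_le (hk : k ≤ κ) (hr : r ≤ κ) : (2 * k + k * r) ^ (2 * k) ≤ 2 ^ (4 * (κ * κ)) := by
  have h1 : 2 * k + k * r ≤ 2 ^ (2 * κ) := by
    have h := sq_le_pow κ
    have h2 : k * r ≤ κ * κ := Nat.mul_le_mul hk hr
    omega
  calc (2 * k + k * r) ^ (2 * k) ≤ (2 ^ (2 * κ)) ^ (2 * k) := Nat.pow_le_pow_left h1 _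
    _ ≤ (2 ^ (2 * κ)) ^ (2 * κ) := Nat.pow_le_pow_right (by positivity) (by omega)
    _ = 2 ^ (4 * (κ * κ)) := by rw [← pow_mul]; congr 1; ring

theorem k_le (hk : k ≤ κ) : (2 * k) ^ (2 * k) ≤ 2 ^ (4 * (κ * κ)) := by
  have h1 : 2 * k ≤ 2 ^ (2 * κ) := by
    have h := sq_le_pow κ
    have h2 : 0 ≤ κ * κ := Nat.zero_le _
    omega
  calc (2 * k) ^ (2 * k) ≤ (2 ^ (2 * κ)) ^ (2 * k) := Nat.pow_le_pow_left h1 _
    _ ≤ (2 ^ (2 * κ)) ^ (2 * κ) := Nat.pow_le_pow_right (by positivity) (by omega)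
    _ = 2 ^ (4 * (κ * κ)) := by rw [← pow_mul]; congr 1; ring

theorem E_le (hk : k ≤ κ) (hr : r ≤ κ) : (k * (r + 1) + 1) ^ k ≤ 2 ^ (2 * (κ * κ)) := by
  have h1 : k * (r + 1) + 1 ≤ 2 ^ (2 * κ) := by
    have h := sq_le_pow κ
    have h2 : k * (r + 1) ≤ κ * (κ + 1) := Nat.mul_le_mul hk (by omega)
    have h3 : κ * (κ + 1) = κ * κ + κ := by ring
    omega
  calc (k * (r + 1) + 1) ^ k ≤ (2 ^ (2 * κ)) ^ k := Nat.pow_le_pow_left h1 _
    _ ≤ (2 ^ (2 * κ)) ^ κ := Nat.pow_le_pow_right (by positivity) (by omega)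
    _ = 2 ^ (2 * (κ * κ)) := by rw [← pow_mul]; congr 1; ring

/-- The product of the constants. -/
theorem DLq_le (hq : q ≤ κ) (hk : k ≤ κ) (hr : r ≤ κ) :
    ((2 * k + k * r) ^ (2 * k) + 1) * (2 * k) ^ (2 * k) * q ≤ 2 ^ (10 * (κ * κ)) := by
  rcases Nat.eq_zero_or_pos κ with h0 | h0
  · have : q = 0 := by omega
    subst this
    simp
  have h1 := D_le hk hr
  have h2 : (2 * k) ^ (2 * k) ≤ 2 ^ (2 * (κ * κ)) * 2 ^ (2 * (κ * κ)) := by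
    rw [← pow_add]
    refine (k_le hk).trans (le_of_eq ?_)
    congr 1; ring
  have hone : 1 ≤ κ * κ := Nat.mul_le_mul h0 h0
  -- a sharper bound for `2 k`
  have h3 : (2 * k) ^ (2 * k) ≤ 2 ^ (2 * (κ * κ)) := by
    have h4 : 2 * k ≤ 2 ^ κ := by
      refine (Nat.mul_le_mul_left 2 hk).trans ?_
      obtain ⟨j, rfl⟩ : ∃ j, κ = j + 1 := ⟨κ - 1, by omega⟩
      have : j + 1 ≤ 2 ^ j := Nat.lt_two_pow_self
      rw [pow_succ]
      omega
    calc (2 * k) ^ (2 * k) ≤ (2 ^ κ) ^ (2 * k) := Nat.pow_le_pow_left h4 _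
      _ ≤ (2 ^ κ) ^ (2 * κ) := Nat.pow_le_pow_right (by positivity) (by omega)
      _ = 2 ^ (2 * (κ * κ)) := by rw [← pow_mul]; congr 1; ring
  have h5 : q ≤ 2 ^ (κ * κ) := hq.trans (le_pow_sq κ)
  have h6 : (2 * k + k * r) ^ (2 * k) + 1 ≤ 2 ^ (4 * (κ * κ) + 1) := by
    rw [pow_succ]
    have : 1 ≤ 2 ^ (4 * (κ * κ)) := Nat.one_le_two_pow
    omega
  calc ((2 * k + k * r) ^ (2 * k) + 1) * (2 * k) ^ (2 * k) * q
      ≤ 2 ^ (4 * (κ * κ) + 1) * 2 ^ (2 * (κ * κ)) * 2 ^ (κ * κ) :=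
        Nat.mul_le_mul (Nat.mul_le_mul h6 h3) h5
    _ = 2 ^ (7 * (κ * κ) + 1) := by rw [← pow_add, ← pow_add]; congr 1; ring
    _ ≤ 2 ^ (10 * (κ * κ)) := Nat.pow_le_pow_right (by norm_num) (by omega)

theorem q_E_le (hq : q ≤ κ) (hk : k ≤ κ) (hr : r ≤ κ) :
    q * (k * (r + 1) + 1) ^ k ≤ 2 ^ (10 * (κ * κ)) := by
  calc q * (k * (r + 1) + 1) ^ k ≤ 2 ^ (κ * κ) * 2 ^ (2 * (κ * κ)) :=
        Nat.mul_le_mul (hq.trans (le_pow_sq κ)) (E_le hk hr)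
    _ = 2 ^ (3 * (κ * κ)) := by rw [← pow_add]; congr 1; ring
    _ ≤ 2 ^ (10 * (κ * κ)) := Nat.pow_le_pow_right (by norm_num) (by omega)

theorem kk_le : (κ + 1) * (κ * κ + 2) ≤ 2 * 2 ^ (10 * (κ * κ)) := by
  have h1 : κ + 1 ≤ 2 ^ (2 * (κ * κ)) := by
    rcases Nat.eq_zero_or_pos κ with h | h
    · subst h; norm_num
    · have h2 : κ + 1 ≤ 2 ^ κ := Nat.lt_two_pow_self
      refine h2.trans (Nat.pow_le_pow_right (by norm_num) ?_)
      have := Nat.le_mul_of_pos_left κ h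
      omega
  have h3 : κ * κ + 2 ≤ 2 * 2 ^ (κ * κ) := by
    have : κ * κ + 1 ≤ 2 ^ (κ * κ) := Nat.lt_two_pow_self
    have : 1 ≤ 2 ^ (κ * κ) := Nat.one_le_two_pow
    omega
  calc (κ + 1) * (κ * κ + 2) ≤ 2 ^ (2 * (κ * κ)) * (2 * 2 ^ (κ * κ)) := Nat.mul_le_mul h1 h3
    _ = 2 * 2 ^ (3 * (κ * κ)) := by
      rw [show 3 * (κ * κ) = 2 * (κ * κ) + κ * κ by ring, pow_add]; ring
    _ ≤ 2 * 2 ^ (10 * (κ * κ)) :=
      Nat.mul_le_mul_left _ (Nat.pow_le_pow_right (by norm_num) (by omega))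

end

theorem nb_mul (n : ℕ) : nb n * (ll n * ll n * ll n * ll n) ≤ n := Nat.div_mul_le_self _ _

theorem bS_pow (k n : ℕ) : bS k n ^ (2 * k) ≤ nb n + 1 := by
  unfold bS
  rw [← pow_mul]
  have h1 : Nat.log 2 (nb n) / (2 * k) * (2 * k) ≤ Nat.log 2 (nb n) := Nat.div_mul_le_self _ _
  refine (Nat.pow_le_pow_right (by norm_num) h1).trans ?_
  rcases Nat.eq_zero_or_pos (nb n) with h | h
  · rw [h]; simp
  · exact (Nat.pow_log_le_self 2 h.ne').trans (Nat.le_succ _)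

theorem bS_pos (k n : ℕ) : 0 < bS k n := by
  unfold bS; positivity

theorem log_nb (n : ℕ) : Nat.log 2 (nb n) ≤ ll n := by
  unfold ll
  refine (Nat.log_mono_right (b := 2) (Nat.div_le_self _ _)).trans (Nat.le_succ _)

theorem m_div {k n m : ℕ} (hm : m ≤ mS k n) : m / bS k n ≤ nb n := by
  refine (Nat.div_le_div_right hm).trans ?_
  unfold mS
  rw [Nat.mul_div_cancel_left _ (bS_pos k n)]

theorem thm : G_PAR := by
  intro x q k r m hq hk hr hm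
  have hP := pow_kap_le (Nat.log 2 x)
  have hD := D_le hk hr
  have hK := k_le hk
  have hE := E_le hk hr
  have hQ := (DLq_le hq hk hr).trans hP
  have hqE := (q_E_le hq hk hr).trans hP
  have hkk := (kk_le (κ := kap (Nat.log 2 x))).trans (Nat.mul_le_mul_left 2 hP)
  have hb := bS_pow k (Nat.log 2 x)
  have hbm := m_div hm
  have hlog := log_nb (Nat.log 2 x)
  have hl1 := ll_pos (Nat.log 2 x)
  have hl2 := ll_le (Nat.log 2 x)
  have hl5 := ll_five (Nat.log 2 x)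
  have hnb := nb_mul (Nat.log 2 x)
  have h4 : 2 ^ (4 * (kap (Nat.log 2 x) * kap (Nat.log 2 x))) ≤ ll (Nat.log 2 x) :=
    (Nat.pow_le_pow_right (by norm_num) (by omega)).trans hP
  have h2 : 2 ^ (2 * (kap (Nat.log 2 x) * kap (Nat.log 2 x))) ≤ ll (Nat.log 2 x) :=
    (Nat.pow_le_pow_right (by norm_num) (by omega)).trans hP
  have hkap : kap (Nat.log 2 x) * kap (Nat.log 2 x) ≤ ll (Nat.log 2 x) := by
    have h5 : 10 * (kap (Nat.log 2 x) * kap (Nat.log 2 x)) <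
      2 ^ (10 * (kap (Nat.log 2 x) * kap (Nat.log 2 x))) := Nat.lt_two_pow_self
    omega
  have hkap1 : kap (Nat.log 2 x) ≤ ll (Nat.log 2 x) :=
    (le_pow_sq _).trans ((Nat.pow_le_pow_right (by norm_num) (by omega)).trans hP)
  -- the side of the blocks is a power of two
  have hbe : bS k (Nat.log 2 x) = 2 ^ (Nat.log 2 (nb (Nat.log 2 x)) / (2 * k)) := rfl
  have hbl : Nat.log 2 (nb (Nat.log 2 x)) / (2 * k) ≤ ll (Nat.log 2 x) :=
    (Nat.div_le_self _ _).trans hlog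
  have hlq : ll (Nat.log 2 x) * ll (Nat.log 2 x) * ll (Nat.log 2 x) ≤
      600 * (Nat.log 2 x + 1) := by
    have h6 : ll (Nat.log 2 x) ^ 3 ≤ ll (Nat.log 2 x) ^ 5 := Nat.pow_le_pow_right hl1 (by norm_num)
    have h7 : ll (Nat.log 2 x) ^ 3 = ll (Nat.log 2 x) * ll (Nat.log 2 x) * ll (Nat.log 2 x) := by
      ring
    omega
  have hlsq : ll (Nat.log 2 x) * ll (Nat.log 2 x) ≤
      ll (Nat.log 2 x) * ll (Nat.log 2 x) * ll (Nat.log 2 x) := Nat.le_mul_of_pos_right _ hl1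
  have hll1 : ll (Nat.log 2 x) ≤ ll (Nat.log 2 x) * ll (Nat.log 2 x) :=
    Nat.le_mul_of_pos_right _ hl1
  have hcube : ll (Nat.log 2 x) * ll (Nat.log 2 x) * ll (Nat.log 2 x) * nb (Nat.log 2 x) ≤
      Nat.log 2 x := by
    calc ll (Nat.log 2 x) * ll (Nat.log 2 x) * ll (Nat.log 2 x) * nb (Nat.log 2 x)
        = nb (Nat.log 2 x) * (ll (Nat.log 2 x) * ll (Nat.log 2 x) * ll (Nat.log 2 x) * 1) := by
          ring
      _ ≤ nb (Nat.log 2 x) * (ll (Nat.log 2 x) * ll (Nat.log 2 x) * ll (Nat.log 2 x) *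
          ll (Nat.log 2 x)) := Nat.mul_le_mul le_rfl (Nat.mul_le_mul le_rfl hl1)
      _ ≤ _ := hnb
  have hzb : (2 * k * bS k (Nat.log 2 x)) ^ (2 * k) =
      (2 * k) ^ (2 * k) * bS k (Nat.log 2 x) ^ (2 * k) := mul_pow _ _ _
  have hDLq : ((2 * k + k * r) ^ (2 * k) + 1) *
      ((2 * k * bS k (Nat.log 2 x)) ^ (2 * k) * q) ≤
      ll (Nat.log 2 x) * (nb (Nat.log 2 x) + 1) := by
    rw [hzb]
    calc ((2 * k + k * r) ^ (2 * k) + 1) * ((2 * k) ^ (2 * k) * bS k (Nat.log 2 x) ^ (2 * k) * q)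
        = (((2 * k + k * r) ^ (2 * k) + 1) * (2 * k) ^ (2 * k) * q) *
          bS k (Nat.log 2 x) ^ (2 * k) := by ring
      _ ≤ _ := Nat.mul_le_mul hQ hb
  have hDL : (2 * k + k * r) ^ (2 * k) * ((2 * k * bS k (Nat.log 2 x)) ^ (2 * k) * q) ≤
      4 * (Nat.log 2 x + 1) := by
    have h5 : (2 * k + k * r) ^ (2 * k) * ((2 * k * bS k (Nat.log 2 x)) ^ (2 * k) * q) ≤
        ll (Nat.log 2 x) * (nb (Nat.log 2 x) + 1) :=
      (Nat.mul_le_mul_right _ (Nat.le_succ _)).trans hDLq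
    have h6 : ll (Nat.log 2 x) * (nb (Nat.log 2 x) + 1) =
        ll (Nat.log 2 x) * nb (Nat.log 2 x) + ll (Nat.log 2 x) := by ring
    have h7 : ll (Nat.log 2 x) * nb (Nat.log 2 x) ≤
        ll (Nat.log 2 x) * ll (Nat.log 2 x) * ll (Nat.log 2 x) * nb (Nat.log 2 x) :=
      Nat.mul_le_mul_right _ (hll1.trans hlsq)
    omega
  have hpL := pL_le hDL
  generalize hn : Nat.log 2 x = n at *
  generalize hκ : kap n = κ at *
  generalize hℓ : ll n = ℓ at *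
  have htwo : ∀ t, t ≤ 20000 * (n + 1) → 2 ^ t ≤ CX x := fun t ht => two_pow_le_CX (by rw [hn]; exact ht)
  have hself : ∀ t, t ≤ 20000 * (n + 1) → t ≤ CX x := fun t ht =>
    (Nat.lt_two_pow_self).le.trans (htwo t ht)
  have hkr : k * r ≤ κ * κ := Nat.mul_le_mul hk hr
  have hlk : ℓ * (k * r) ≤ ℓ * ℓ := Nat.mul_le_mul le_rfl (hkr.trans hkap)
  have hk2 : k ≤ 2 ^ (2 * κ) := by
    have := sq_le_pow κ
    omega
  refine ⟨bS_pos k n, htwo _ (by omega), htwo _ (by omega), ?_, ?_, ?_, ?_, ?_, ?_, ?_, ?_, ?_, ?_⟩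
  · -- n1
    rw [hbe, ← pow_add, ← pow_mul]
    refine htwo _ ?_
    have h5 : (ℓ + Nat.log 2 (nb n) / (2 * k)) * (2 * k) ≤ (ℓ + ℓ) * (2 * κ) :=
      Nat.mul_le_mul (by omega) (by omega)
    have h6 : (ℓ + ℓ) * (2 * κ) ≤ (ℓ + ℓ) * (2 * ℓ) := Nat.mul_le_mul le_rfl (by omega)
    have h7 : (ℓ + ℓ) * (2 * ℓ) = 4 * (ℓ * ℓ) := by ring
    omega
  · -- n2
    rw [hbe, ← pow_add, ← pow_mul]
    refine htwo _ ?_
    have h5 : (ℓ + Nat.log 2 (nb n) / (2 * k)) * (k * r) ≤ (ℓ + ℓ) * ℓ :=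
      Nat.mul_le_mul (by omega) (by omega)
    have h7 : (ℓ + ℓ) * ℓ = 2 * (ℓ * ℓ) := by ring
    omega
  · -- z1
    rw [hzb]
    refine hself _ ?_
    have h5 : (2 * k) ^ (2 * k) * bS k n ^ (2 * k) ≤ ℓ * (nb n + 1) :=
      Nat.mul_le_mul (hK.trans h4) hb
    have h6 : ℓ * (nb n + 1) = ℓ * nb n + ℓ := by ring
    have h7 : ℓ * nb n ≤ ℓ * ℓ * ℓ * nb n := Nat.mul_le_mul_right _ (hll1.trans hlsq)
    omega
  · -- z2
    have h5 : 2 * k * bS k n ≤ 2 ^ (2 * κ + ℓ) := by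
      rw [pow_add]
      refine Nat.mul_le_mul ?_ ?_
      · have := sq_le_pow κ
        have h0 : 0 ≤ κ * κ := Nat.zero_le _
        omega
      · rw [hbe]; exact Nat.pow_le_pow_right (by norm_num) hbl
    refine (Nat.pow_le_pow_left h5 _).trans ?_
    rw [← pow_mul]
    refine htwo _ ?_
    have h6 : (2 * κ + ℓ) * (k * r) ≤ (3 * ℓ) * ℓ := Nat.mul_le_mul (by omega) (by omega)
    have h7 : (3 * ℓ) * ℓ = 3 * (ℓ * ℓ) := by ring
    omega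
  · -- i1
    rw [← pow_mul]
    refine htwo _ ?_
    have h5 : k * (r + 1) ≤ 2 * ℓ := by
      have : k * (r + 1) = k * r + k := by ring
      omega
    have h6 : (q + 2) * (k * (r + 1)) ≤ (3 * ℓ) * (2 * ℓ) := Nat.mul_le_mul (by omega) h5
    have h7 : (3 * ℓ) * (2 * ℓ) = 6 * (ℓ * ℓ) := by ring
    omega
  · -- v1
    exact hself _ (by omega)
  · -- v2
    rw [← pow_mul]
    exact htwo _ (by omega)
  · -- d1
    exact hself _ (by omega)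
  · -- p1
    refine (Nat.pow_le_pow_left hpL _).trans ?_
    rw [← pow_mul]
    refine htwo _ ?_
    calc (ℓ + 5) * (((2 * k + k * r) ^ (2 * k) + 1) * ((2 * k * bS k n) ^ (2 * k) * q))
        ≤ (6 * ℓ) * (ℓ * (nb n + 1)) := Nat.mul_le_mul (by omega) hDLq
      _ = 6 * (ℓ * ℓ * nb n) + 6 * (ℓ * ℓ) := by ring
      _ ≤ 6 * (ℓ * ℓ * ℓ * nb n) + 6 * (ℓ * ℓ * ℓ) := by
        refine Nat.add_le_add (Nat.mul_le_mul_left _ (Nat.mul_le_mul_right _ hlsq)) ?_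
        omega
      _ ≤ 20000 * (n + 1) := by omega
  · -- m1
    have hMM : MM (pL ((2 * k + k * r) ^ (2 * k) * ((2 * k * bS k n) ^ (2 * k) * q)))
        ((2 * k + k * r) ^ (2 * k)) ≤ 2 ^ (2 * ℓ + 8) := by
      unfold MM
      have h5 : 2 * (2 * k + k * r) ^ (2 * k) + 3 ≤ 2 ^ (ℓ + 3) := by
        have h6 : ℓ + 1 ≤ 2 ^ ℓ := Nat.lt_two_pow_self
        rw [pow_add]
        omega
      calc (pL ((2 * k + k * r) ^ (2 * k) * ((2 * k * bS k n) ^ (2 * k) * q)) - 1) *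
            (2 * (2 * k + k * r) ^ (2 * k) + 3) ≤ 2 ^ (ℓ + 5) * 2 ^ (ℓ + 3) :=
            Nat.mul_le_mul ((Nat.sub_le _ _).trans hpL) h5
        _ = 2 ^ (2 * ℓ + 8) := by rw [← pow_add]; congr 1; ring
    refine (Nat.pow_le_pow_left hMM _).trans ?_
    rw [← pow_mul]
    refine htwo _ ?_
    have h5 : (k + 1) * (m / bS k n) + k ≤ (κ + 1) * (nb n + 1) := by
      calc (k + 1) * (m / bS k n) + k ≤ (κ + 1) * nb n + (κ + 1) := by
            refine Nat.add_le_add (Nat.mul_le_mul (by omega) hbm) (by omega)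
        _ = (κ + 1) * (nb n + 1) := by ring
    have h6 : HH k r ℓ ≤ ℓ * (κ * κ + 2) := by
      unfold HH
      calc ℓ * (k * r) + 2 ≤ ℓ * (κ * κ) + ℓ * 2 :=
            Nat.add_le_add (Nat.mul_le_mul le_rfl hkr) (by omega)
        _ = ℓ * (κ * κ + 2) := by ring
    calc (2 * ℓ + 8) * (((k + 1) * (m / bS k n) + k) * HH k r ℓ)
        ≤ (10 * ℓ) * ((κ + 1) * (nb n + 1) * (ℓ * (κ * κ + 2))) :=
          Nat.mul_le_mul (by omega) (Nat.mul_le_mul h5 h6)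
      _ = (10 * ℓ) * (((κ + 1) * (κ * κ + 2)) * (ℓ * (nb n + 1))) := by ring
      _ ≤ (10 * ℓ) * ((2 * ℓ) * (ℓ * (nb n + 1))) :=
          Nat.mul_le_mul le_rfl (Nat.mul_le_mul hkk le_rfl)
      _ = 20 * (ℓ * ℓ * ℓ * nb n) + 20 * (ℓ * ℓ * ℓ) := by ring
      _ ≤ 20000 * (n + 1) := by omega

end Pool.Agent.Helper25.RG.PkPAR
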